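import Pool.Agent.helper96.PP2.SpecB

set_option autoImplicit false

namespace Pool.Agent.PP2

open Topology Matrix

theorem AMU (hHAV : HAV_stmt) (hSQR : SQR_stmt) (hSQU : SQU_stmt) : AMU_stmt := by
  intro p R _ _ _ _ _ _ J hp hp2 hS g hg K' K hK' hle hB Z hZ
  obtain ⟨hH1, -⟩ := hHAV p R J hp hp2 hS
  -- the additive group of multipliers
  let S : AddSubgroup R :=
    { carrier := {s | ∀ Z ∈ K, s • Z ∈ K'}
      zero_mem' := fun Z _ => by rw [zero_smul]; exact K'.zero_mem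
      add_mem' := fun {a b} ha hb Z hZ => by
        rw [add_smul]; exact K'.add_mem (ha Z hZ) (hb Z hZ)
      neg_mem' := fun {a} ha Z hZ => by
        rw [neg_smul]; exact K'.neg_mem (ha Z hZ) }
  have hSm : ∀ s : R, s ∈ S ↔ ∀ Z ∈ K, s • Z ∈ K' := fun s => Iff.rfl
  have hScl : IsClosed (S : Set R) := by
    have h1 : (S : Set R) = ⋂ Z ∈ K, (fun s : R => s • Z) ⁻¹' (K' : Set (M2 R)) := by
      ext s
      simp only [Set.mem_iInter, Set.mem_preimage, SetLike.mem_coe]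
      exact hSm s
    rw [h1]
    refine isClosed_biInter fun Z _ => hK'.preimage ?_
    exact continuous_id.smul continuous_const
  have hSmul : ∀ x ∈ S, ∀ y ∈ S, x * y ∈ S := by
    intro x hx y hy
    rw [hSm] at hx hy ⊢
    intro Z hZ
    rw [mul_smul]
    exact hx _ (hle (hy Z hZ))
  have hu : ⅟(2 : R) * Bf (TH g) (TH g) ∈ S := by
    rw [hSm]
    intro Z hZ
    rw [mul_smul]
    exact hH1 K' hK' _ (hB Z hZ)
  have huJ : ⅟(2 : R) * Bf (TH g) (TH g) ∈ J := by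
    apply J.mul_mem_left
    rw [Lib_Bf]
    exact J.add_mem (J.add_mem (J.mul_mem_right _ (Lib_TH_ent J g hg 0 0)) (J.mul_mem_right _ (Lib_TH_ent J g hg 0 1)))
      (J.add_mem (J.mul_mem_right _ (Lib_TH_ent J g hg 1 0)) (J.mul_mem_right _ (Lib_TH_ent J g hg 1 1)))
  obtain ⟨c, hcJ, hc1, hc2⟩ := hSQR p R J hp hp2 hS _ huJ
  have hcS : c ∈ S := hc2 S hScl hSmul hu
  have heq : c = ht g - 1 := by
    apply (hSQU p R J hp hp2 hS).2 c hcJ _ (Lib_ht_sub_one J g hg)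
    rw [hc1, add_sub_cancel, Lib_ht_sq J g hg]
  rw [heq] at hcS
  exact hcS Z hZ

theorem AMU_row (hHAV : HAV_stmt) (hSQR : SQR_stmt) (hSQU : SQU_stmt) : AMU_stmt := AMU hHAV hSQR hSQU

end Pool.Agent.PP2
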