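import Pool.Agent.helper96.PP2.SpecA

set_option autoImplicit false

namespace Pool.Agent.PP2

open Topology

theorem H1U_smul (p : ℕ) {U : Type} [Group U] (g : U) (m : Fp p) : g • m = m := rfl

theorem H1U_add {p : ℕ} {U : Type} [Group U] {f : U → Fp p} (h : ∀ a b : U, d1 f a b = 0) (a b : U) :
    f (a * b) = f a + f b := by
  have h1 := h a b
  unfold d1 at h1
  rw [H1U_smul] at h1
  have h2 : f a + f b - f (a * b) = 0 := by rw [← h1]; abel
  exact (sub_eq_zero.1 h2).symm

theorem H1U_pow {p : ℕ} {U : Type} [Group U] {f : U → Fp p} (h : ∀ a b : U, d1 f a b = 0) (a : U) (n : ℕ) :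
    f (a ^ n) = n • f a := by
  induction n with
  | zero =>
    have h1 := H1U_add h 1 1
    rw [mul_one] at h1
    have h2 : f 1 = 0 := by simpa using h1
    simpa using h2
  | succ n ih => rw [pow_succ, H1U_add h, ih, succ_nsmul]

theorem H1U_lin (p : ℕ) [Fact p.Prime] (W : Type) [AddCommGroup W] [Module (ZMod p) W] (d : ℕ)
    (hc : Nat.card W = p ^ d) : Nat.card (W →+ ZMod p) = p ^ d := by
  have hp : p.Prime := Fact.out
  have hfin : Finite W := by
    apply Nat.finite_of_card_ne_zero
    rw [hc]
    exact pow_ne_zero _ hp.ne_zero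
  have : Module.Finite (ZMod p) W := Module.Finite.of_finite
  have hfr : Module.finrank (ZMod p) W = d := by
    have h1 := Module.natCard_eq_pow_finrank (K := ZMod p) (V := W)
    rw [hc, Nat.card_zmod] at h1
    exact (Nat.pow_right_injective hp.two_le h1).symm
  have hdual : Nat.card (Module.Dual (ZMod p) W) = p ^ d := by
    rw [Module.natCard_eq_pow_finrank (K := ZMod p), Subspace.dual_finrank_eq, hfr, Nat.card_zmod]
  rw [← hdual]
  apply Nat.card_congr
  exact
    { toFun := fun f => f.toZModLinearMap p
      invFun := fun f => f.toAddMonoidHom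
      left_inv := fun f => rfl
      right_inv := fun f => rfl }

theorem H1U_hom (p : ℕ) [Fact p.Prime] (V : Type) [CommGroup V] (hexp : ∀ a : V, a ^ p = 1) (d : ℕ)
    (hc : Nat.card V = p ^ d) : Nat.card (V →* Multiplicative (ZMod p)) = p ^ d := by
  let _ : Module (ZMod p) (Additive V) := AddCommGroup.zmodModule (n := p) (fun a => by
    have h2 : Additive.toMul (p • a) = 1 := by rw [toMul_nsmul, hexp]
    exact h2)
  rw [← H1U_lin p (Additive V) d hc]
  apply Nat.card_congr
  exact
    { toFun := fun f => { toFun := fun a => Multiplicative.toAdd (f (Additive.toMul a))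
                          map_zero' := by simp
                          map_add' := fun a b => by simp }
      invFun := fun f => { toFun := fun a => Multiplicative.ofAdd (f (Additive.ofMul a))
                           map_one' := by simp
                           map_mul' := fun a b => by simp }
      left_inv := fun f => by ext; rfl
      right_inv := fun f => by ext; rfl }

theorem H1U_row : H1U_stmt := by
  intro p U _ _ _ _ F d hp hF hidx
  have hpf : Fact p.Prime := ⟨hp⟩
  have hnor : (F 1).Normal := hF.nor 1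
  -- the quotient is commutative of exponent dividing p
  have hcomm : ∀ x y : U ⧸ F 1, x * y = y * x := by
    intro x y
    induction x using QuotientGroup.induction_on with
    | H x =>
      induction y using QuotientGroup.induction_on with
      | H y =>
        rw [← QuotientGroup.mk_mul, ← QuotientGroup.mk_mul, QuotientGroup.eq]
        have h2 : (x * y)⁻¹ * (y * x) = y⁻¹ * (x⁻¹ * y⁻¹⁻¹ * x⁻¹⁻¹ * y⁻¹) * y⁻¹⁻¹ := by group
        have h3 : x⁻¹ * y⁻¹⁻¹ * x⁻¹⁻¹ * y⁻¹ ∈ F 1 := by
          have h4 := hF.com 0 x⁻¹ (by rw [hF.top]; trivial) y (by rw [hF.top]; trivial)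
          have h5 := hF.anti (show 1 ≤ 0 + 2 by norm_num) h4
          simpa using h5
        rw [h2]
        exact hnor.conj_mem _ h3 y⁻¹
  have hexp : ∀ a : U ⧸ F 1, a ^ p = 1 := by
    intro a
    obtain ⟨x, rfl⟩ := QuotientGroup.mk_surjective (s := F 1) a
    rw [← QuotientGroup.mk_pow, QuotientGroup.eq_one_iff]
    exact hF.pow 0 x (by rw [hF.top]; trivial)
  have hcount : Nat.card (U ⧸ F 1 →* Multiplicative (ZMod p)) = p ^ d := by
    let _ : CommGroup (U ⧸ F 1) := { (inferInstance : Group (U ⧸ F 1)) with mul_comm := hcomm }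
    exact H1U_hom p (U ⧸ F 1) hexp d hidx
  -- the boundaries vanish
  have hB : B1 U (Fp p) = ⊥ := by
    rw [eq_bot_iff]
    rintro f ⟨m, hm⟩
    rw [AddSubgroup.mem_bot]
    funext g
    rw [hm g, H1U_smul, sub_self]
    rfl
  unfold h1
  rw [hB, AddSubgroup.relIndex_bot_left, ← hcount]
  symm
  -- the map to the cocycles
  let g : (U ⧸ F 1 →* Multiplicative (ZMod p)) → Z1 U (Fp p) := fun φ =>
    ⟨fun x => Multiplicative.toAdd (φ (QuotientGroup.mk x)), by
      refine ⟨?_, ?_⟩
      · rw [IsLocallyConstant.iff_exists_open]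
        intro x
        refine ⟨(fun y => x⁻¹ * y) ⁻¹' (F 1 : Set U), (hF.op 1).preimage (continuous_const_mul _), ?_, ?_⟩
        · simp only [Set.mem_preimage, inv_mul_cancel]
          exact (F 1).one_mem
        · intro y hy
          have h1 : (QuotientGroup.mk y : U ⧸ F 1) = QuotientGroup.mk x :=
            (QuotientGroup.eq.2 hy).symm
          rw [h1]
      · intro a b
        unfold d1
        rw [H1U_smul]
        have h1 : φ (QuotientGroup.mk (a * b) : U ⧸ F 1) =
            φ (QuotientGroup.mk a : U ⧸ F 1) * φ (QuotientGroup.mk b : U ⧸ F 1) := by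
          rw [QuotientGroup.mk_mul, map_mul]
        have h2 : (Multiplicative.toAdd (φ (QuotientGroup.mk b : U ⧸ F 1)) : ZMod p) -
            Multiplicative.toAdd (φ (QuotientGroup.mk (a * b) : U ⧸ F 1)) +
            Multiplicative.toAdd (φ (QuotientGroup.mk a : U ⧸ F 1)) = 0 := by
          rw [h1, toAdd_mul]; ring
        exact h2⟩
  have hginj : Function.Injective g := by
    intro φ ψ h
    apply MonoidHom.ext
    intro a
    obtain ⟨x, rfl⟩ := QuotientGroup.mk_surjective (s := F 1) a
    have h1 := congrFun (congrArg Subtype.val h) x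
    have h2 : Multiplicative.toAdd (φ (QuotientGroup.mk x : U ⧸ F 1)) = Multiplicative.toAdd (ψ (QuotientGroup.mk x : U ⧸ F 1)) := h1
    exact Multiplicative.toAdd.injective h2
  have hgsurj : Function.Surjective g := by
    rintro ⟨f, hf, hf'⟩
    have hadd := H1U_add hf'
    have hker : ∀ y ∈ F 1, f y = 0 := by
      intro y hy
      obtain ⟨x, -, hx⟩ := hF.root 0 y hy
      rw [← hx, H1U_pow hf']
      have h1 : ∀ z : ZMod p, p • z = 0 := fun z => by
        rw [nsmul_eq_mul, CharP.cast_eq_zero, zero_mul]
      exact h1 (f x)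
    let fm : U →* Multiplicative (ZMod p) :=
      MonoidHom.mk' (fun x => Multiplicative.ofAdd (show ZMod p from f x)) (fun a b => by
        rw [← ofAdd_add]
        exact congrArg Multiplicative.ofAdd (hadd a b))
    have hfm : F 1 ≤ fm.ker := by
      intro y hy
      rw [MonoidHom.mem_ker]
      exact congrArg Multiplicative.ofAdd (hker y hy)
    refine ⟨QuotientGroup.lift (F 1) fm hfm, ?_⟩
    apply Subtype.ext
    funext x
    rfl
  exact Nat.card_congr (Equiv.ofBijective g ⟨hginj, hgsurj⟩)

end Pool.Agent.PP2
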